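import Pool.Agent.V7H4.Sq.Fun

set_option autoImplicit false

/-! Markov's inequality for the total length of `k` irreducible bridges. -/

namespace Pool.Agent.V7H81.LH

open scoped ENNReal
open Filter Topology
open Pool.Agent.V7H4.Sq

theorem EL_length (hI : ∑' a, wI a = 1) : ∀ n : ℕ,
    EL n (fun u => ((u.length : ℕ) : ℝ≥0∞)) = n * ∑' a, wI a * ((a.length : ℕ) : ℝ≥0∞)
  | 0 => by
    unfold EL
    simp
  | n + 1 => by
    have ih := EL_length hI n
    unfold EL
    have h1 : ∀ a : List P, wI a * EL n (fun u => (((a ++ u).length : ℕ) : ℝ≥0∞)) =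
        wI a * ((a.length : ℕ) : ℝ≥0∞) +
          wI a * (n * ∑' a, wI a * ((a.length : ℕ) : ℝ≥0∞)) := by
      intro a
      have e : (fun u : List P => (((a ++ u).length : ℕ) : ℝ≥0∞)) =
          fun u => ((a.length : ℕ) : ℝ≥0∞) + ((u.length : ℕ) : ℝ≥0∞) := by
        funext u
        rw [List.length_append]
        push_cast
        rfl
      rw [e, EL_add, EL_const hI, ih, mul_add]
    rw [tsum_congr h1, ENNReal.tsum_add, ENNReal.tsum_mul_right, hI, one_mul]
    push_cast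
    ring

theorem markov (hI : ∑' a, wI a = 1) (hE : ∑' a, wI a * ((a.length : ℕ) : ℝ≥0∞) ≠ ⊤) :
    ∃ M : ℕ, 1 ≤ M ∧ ∀ k : ℕ, 1 ≤ k → 1 / 2 ≤ EL k (fun u => ind (u.length < M * k)) := by
  set E := ∑' a, wI a * ((a.length : ℕ) : ℝ≥0∞) with hEd
  obtain ⟨M, hM⟩ := ENNReal.exists_nat_gt (ENNReal.mul_ne_top (ENNReal.ofNat_ne_top (n := 2)) hE)
  refine ⟨M + 1, by omega, fun k hk => ?_⟩
  have h1 : EL k (fun u => ind (u.length < (M + 1) * k)) +
      EL k (fun u => ind (¬ u.length < (M + 1) * k)) = 1 := by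
    rw [← EL_add]
    simp only [ind_add_not]
    exact EL_one hI k
  have h2 : (((M + 1) * k : ℕ) : ℝ≥0∞) * EL k (fun u => ind (¬ u.length < (M + 1) * k)) ≤
      k * E := by
    rw [← EL_mul, hEd, ← EL_length hI k]
    apply EL_mono
    intro u _
    by_cases h : u.length < (M + 1) * k
    · rw [ind_false (not_not.2 h), mul_zero]
      exact zero_le
    · rw [ind_true h, mul_one]
      exact_mod_cast not_lt.1 h
  set q := EL k (fun u => ind (¬ u.length < (M + 1) * k)) with hq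
  set p := EL k (fun u => ind (u.length < (M + 1) * k)) with hp
  have hq1 : q ≤ 1 := by
    rw [← h1]
    exact le_add_self
  have hqt : q ≠ ⊤ := ne_top_of_le_ne_top ENNReal.one_ne_top hq1
  have hk0 : (k : ℝ≥0∞) ≠ 0 := by
    exact_mod_cast (by omega : k ≠ 0)
  have h3 : (k : ℝ≥0∞) * ((M + 1 : ℕ) * q) ≤ k * E := by
    refine le_trans (le_of_eq ?_) h2
    push_cast
    ring
  have h4 : ((M + 1 : ℕ) : ℝ≥0∞) * q ≤ E :=
    (ENNReal.mul_le_mul_iff_right hk0 (ENNReal.natCast_ne_top k)).1 h3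
  have h5 : (2 : ℝ≥0∞) * q ≤ 1 := by
    by_contra hc
    rw [not_le] at hc
    have h6 : E ≤ E * (2 * q) := by
      calc E = E * 1 := (mul_one E).symm
        _ ≤ E * (2 * q) := by gcongr
    have h7 : 2 * E * q < ((M + 1 : ℕ) : ℝ≥0∞) * q := by
      rw [mul_comm (2 * E) q, mul_comm _ q]
      refine ENNReal.mul_lt_mul_right ?_ hqt ?_
      · rintro h0
        rw [h0] at hc
        simp at hc
      · refine lt_trans hM ?_
        exact_mod_cast Nat.lt_succ_self M
    have h8 : E < E := calc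
      E ≤ E * (2 * q) := h6
      _ = 2 * E * q := by ring
      _ < _ := h7
      _ ≤ E := h4
    exact lt_irrefl _ h8
  -- p ≥ 1/2
  by_contra hc
  rw [not_le] at hc
  have h9 : q ≤ 1 / 2 := by
    rw [ENNReal.le_div_iff_mul_le (Or.inl two_ne_zero) (Or.inl ENNReal.ofNat_ne_top), mul_comm]
    exact h5
  have h10 : p + q < 1 / 2 + 1 / 2 := ENNReal.add_lt_add_of_lt_of_le hqt hc h9
  rw [h1, ENNReal.add_halves] at h10
  exact lt_irrefl _ h10

end Pool.Agent.V7H81.LH
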